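import Mathlib

/-!
# No syndetic set is a weak interpolation set of order two for totally transitive systems

Let every interval `{n, ..., n + L}` meet `S`.  Take a periodic `0`-`1` sequence `g`, of period `M`,
which contains every word of length `L + 1`, and let `f = g` on `S`.  Suppose `F (T^n x) = f n` on `S`
with `T` totally transitive and `x` transitive.  Choose a word `w` with `|F (T^j x) - w_j| ≥ 1/2` for
`j ≤ L`, an `i` with `g (i + j) = w_j` for `j ≤ L`, and a `p ≡ i` modulo `M` for which `T^p x` is very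
close to `x`.  Some `p + j` with `j ≤ L` is in `S`, and then `F (T^j x)` is within `1/2` of
`F (T^(p+j) x) = g (i + j) = w_j`, a contradiction.
-/

set_option autoImplicit false

namespace Pool.Agent.Results.MP_816335_an.NoSyndeticOrderTwo

universe u

/-- `S` is syndetic: for some `L ≥ 1` every interval `{n, ..., n + L}` of positive integers meets
`S`. -/
def Syndetic (S : Set ℕ) : Prop := ∃ L : ℕ, 1 ≤ L ∧ ∀ n : ℕ, 1 ≤ n → ∃ j ≤ L, n + j ∈ S

/-- Topological transitivity of a self-map. -/
def TopTransitive {X : Type u} [TopologicalSpace X] (T : X → X) : Prop :=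
  ∀ U V : Set X, IsOpen U → IsOpen V → U.Nonempty → V.Nonempty →
    ∃ n : ℕ, 1 ≤ n ∧ (U ∩ T^[n] ⁻¹' V).Nonempty

/-- Total transitivity: all positive powers are topologically transitive. -/
def TotallyTransitive {X : Type u} [TopologicalSpace X] (T : X → X) : Prop :=
  ∀ m : ℕ, 1 ≤ m → TopTransitive (T^[m])

/-- `x` is a transitive point: its forward orbit is dense. -/
def TransitivePoint {X : Type u} [TopologicalSpace X] (T : X → X) (x : X) : Prop :=
  Dense (Set.range fun n : ℕ => T^[n] x)

/-- `S` is a weak interpolation set of order `k` for the class of totally transitive systems. -/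
def WeakInterpolation (k : ℕ) (S : Set ℕ) : Prop :=
  ∀ f : S → Fin k, ∃ (X : Type u) (_ : MetricSpace X) (_ : CompactSpace X) (T : X → X) (x : X)
    (F : X → ℂ), Continuous T ∧ TotallyTransitive T ∧ TransitivePoint T x ∧ Continuous F ∧
      ∀ n : S, F (T^[(n : ℕ)] x) = ((f n : ℕ) : ℂ)

/-- Return times in every residue class. -/
lemma exists_return {X : Type u} [TopologicalSpace X] {T : X → X} (hT : Continuous T)
    (htot : TotallyTransitive T) {x : X} (hx : TransitivePoint T x) {M : ℕ} (hM : 1 ≤ M) (i : ℕ)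
    {V : Set X} (hV : IsOpen V) (hne : V.Nonempty) :
    ∃ p : ℕ, 1 ≤ p ∧ p % M = i % M ∧ T^[p] x ∈ V := by
  have hTM := htot M hM
  -- the open dense sets of points which enter `V` at a time congruent to `r`
  let W : ℕ → Set X := fun r => ⋃ n : ℕ, T^[M * (n + 1) + r] ⁻¹' V
  have hWo : ∀ r, IsOpen (W r) := fun r =>
    isOpen_iUnion (fun n => hV.preimage (hT.iterate _))
  have hWd : ∀ r, r < M → Dense (W r) := by
    intro r hr
    rw [dense_iff_inter_open]
    intro U hU hUne
    -- the preimage of `V` under `T^r` is nonempty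
    have hVr : (T^[r] ⁻¹' V).Nonempty := by
      obtain ⟨n, hn, y, _, hy⟩ := hTM Set.univ V isOpen_univ hV ⟨x, trivial⟩ hne
      rw [Set.mem_preimage, ← Function.iterate_mul] at hy
      have hle : r ≤ M * n := hr.le.trans (Nat.le_mul_of_pos_right _ (by omega))
      refine ⟨T^[M * n - r] y, ?_⟩
      rw [Set.mem_preimage, ← Function.iterate_add_apply]
      have : r + (M * n - r) = M * n := by omega
      rw [this]
      exact hy
    obtain ⟨n, hn, y, hyU, hy⟩ := hTM U (T^[r] ⁻¹' V) hU (hV.preimage (hT.iterate _)) hUne hVr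
    refine ⟨y, hyU, ?_⟩
    rw [Set.mem_iUnion]
    refine ⟨n - 1, ?_⟩
    rw [Set.mem_preimage, Set.mem_preimage, ← Function.iterate_mul,
      ← Function.iterate_add_apply] at hy
    rw [Set.mem_preimage]
    have e : M * (n - 1 + 1) + r = r + M * n := by
      rw [Nat.sub_add_cancel hn, add_comm]
    rw [e]
    exact hy
  have hdense : Dense (⋂ r ∈ Finset.range M, W r) := by
    have : ∀ s : Finset ℕ, (∀ r ∈ s, r < M) → Dense (⋂ r ∈ s, W r) ∧ IsOpen (⋂ r ∈ s, W r) := by
      intro s
      induction s using Finset.induction_on with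
      | empty => intro _; simp
      | insert a s ha ih =>
        intro hs
        obtain ⟨h1, h2⟩ := ih (fun r hr => hs r (Finset.mem_insert_of_mem hr))
        rw [Finset.set_biInter_insert]
        exact ⟨(hWd a (hs a (Finset.mem_insert_self _ _))).inter_of_isOpen_right h1 h2,
          (hWo a).inter h2⟩
    exact (this _ (fun r hr => Finset.mem_range.1 hr)).1
  have hopen : IsOpen (⋂ r ∈ Finset.range M, W r) :=
    isOpen_biInter_finset (fun r _ => hWo r)
  obtain ⟨y, hy, k, rfl⟩ := hx.inter_open_nonempty _ hopen (hdense.nonempty_iff.2 ⟨x⟩)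
  -- the residue needed
  have hr : (i + (M - k % M)) % M < M := Nat.mod_lt _ (by omega)
  rw [Set.mem_iInter₂] at hy
  have hyr := hy _ (Finset.mem_range.2 hr)
  rw [Set.mem_iUnion] at hyr
  obtain ⟨n, hn⟩ := hyr
  rw [Set.mem_preimage] at hn
  simp only at hn
  rw [← Function.iterate_add_apply] at hn
  refine ⟨_, ?_, ?_, hn⟩
  · have : 0 < M * (n + 1) := by positivity
    omega
  · have hk : k % M < M := Nat.mod_lt _ (by omega)
    have e1 : M * (n + 1) + (i + (M - k % M)) % M + k ≡ i [MOD M] := by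
      have h1 : (i + (M - k % M)) % M ≡ i + (M - k % M) [MOD M] := Nat.mod_modEq _ _
      have h2 : k ≡ k % M [MOD M] := (Nat.mod_modEq _ _).symm
      have h3 : M * (n + 1) ≡ 0 [MOD M] := by
        rw [Nat.modEq_zero_iff_dvd]
        exact dvd_mul_right _ _
      have h4 := (h3.add h1).add h2
      have e2 : 0 + (i + (M - k % M)) + k % M = i + M := by omega
      rw [e2] at h4
      have h5 : i + M ≡ i [MOD M] := by simp [Nat.ModEq]
      exact h4.trans h5
    exact e1

/-- A periodic binary sequence containing all words of length `L + 1`. -/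
lemma exists_universal (L : ℕ) : ∃ (M : ℕ) (g : ℕ → Fin 2), 1 ≤ M ∧ (∀ n, g (n % M) = g n) ∧
    ∀ w : ℕ → Fin 2, ∃ i, ∀ j ≤ L, g (i + j) = w j := by
  classical
  let e := Fintype.equivFin (Fin (L + 1) → Fin 2)
  set N := Fintype.card (Fin (L + 1) → Fin 2) with hN
  have hNpos : 0 < N := Fintype.card_pos
  let g : ℕ → Fin 2 := fun n =>
    e.symm ⟨(n / (L + 1)) % N, Nat.mod_lt _ hNpos⟩ ⟨n % (L + 1), Nat.mod_lt _ (Nat.succ_pos L)⟩
  refine ⟨(L + 1) * N, g, Nat.mul_pos (Nat.succ_pos L) hNpos, ?_, ?_⟩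
  · intro n
    simp only [g, Nat.mod_mul_right_div_self, Nat.mod_mul_right_mod, Nat.mod_mod]
  · intro w
    refine ⟨(L + 1) * (e (fun j => w j) : ℕ), ?_⟩
    intro j hj
    have h1 : ((L + 1) * (e (fun j => w j) : ℕ) + j) / (L + 1) = (e (fun j => w j) : ℕ) := by
      rw [Nat.mul_add_div (Nat.succ_pos L), Nat.div_eq_of_lt (by omega), add_zero]
    have h2 : ((L + 1) * (e (fun j => w j) : ℕ) + j) % (L + 1) = j := by
      rw [Nat.mul_add_mod, Nat.mod_eq_of_lt (by omega)]
    have h3 : (e (fun j => w j) : ℕ) % N = (e (fun j => w j) : ℕ) := Nat.mod_eq_of_lt (e _).2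
    simp only [g, h1, h2, h3, Fin.eta, Equiv.symm_apply_apply]

/-- No syndetic set is a weak interpolation set of order `2` for the class of totally transitive
systems. -/
theorem result (S : Set ℕ) (hS : Syndetic S) : ¬ WeakInterpolation.{u} 2 S := by
  intro hW
  obtain ⟨L, _, hL⟩ := hS
  obtain ⟨M, g, hM, hper, huniv⟩ := exists_universal L
  obtain ⟨X, _, _, T, x, F, hT, htot, hx, hF, hFS⟩ := hW (fun n => g n)
  -- the word
  have hw : ∀ j : ℕ, ∃ c : Fin 2, 1 / 2 ≤ ‖F (T^[j] x) - ((c : ℕ) : ℂ)‖ := by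
    intro j
    by_contra hno
    push Not at hno
    have h0 := hno 0
    have h1 := hno 1
    have h2 : ‖(1 : ℂ)‖ ≤ ‖F (T^[j] x) - (((0 : Fin 2) : ℕ) : ℂ)‖
        + ‖F (T^[j] x) - (((1 : Fin 2) : ℕ) : ℂ)‖ := by
      have := norm_sub_le (F (T^[j] x) - (((0 : Fin 2) : ℕ) : ℂ))
        (F (T^[j] x) - (((1 : Fin 2) : ℕ) : ℂ))
      refine le_trans (le_of_eq ?_) this
      simp
    rw [norm_one] at h2
    linarith
  choose w hw using hw
  obtain ⟨i, hi⟩ := huniv w
  -- a neighbourhood of `x`
  let V : Set X := ⋂ j ∈ Finset.range (L + 1), {y | ‖F (T^[j] y) - F (T^[j] x)‖ < 1 / 2}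
  have hV : IsOpen V := by
    refine isOpen_biInter_finset (fun j _ => ?_)
    exact isOpen_lt ((((hF.comp (hT.iterate j))).sub continuous_const).norm) continuous_const
  have hxV : x ∈ V := by
    rw [Set.mem_iInter₂]
    intro j _
    simp
  obtain ⟨p, hp1, hpM, hpV⟩ := exists_return hT htot hx hM i hV ⟨x, hxV⟩
  obtain ⟨j, hj, hjS⟩ := hL p hp1
  have h1 := hFS ⟨p + j, hjS⟩
  have h2 : g (p + j) = w j := by
    rw [← hi j hj, ← hper (p + j), ← hper (i + j)]
    congr 1
    exact Nat.ModEq.add_right j hpM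
  simp only at h1
  rw [h2] at h1
  rw [Set.mem_iInter₂] at hpV
  have h3 := hpV j (Finset.mem_range.2 (by omega))
  have h4 : T^[j] (T^[p] x) = T^[p + j] x := by
    rw [← Function.iterate_add_apply, add_comm]
  rw [Set.mem_ofPred_eq, h4, h1] at h3
  have h5 := hw j
  rw [norm_sub_rev] at h3
  linarith

end Pool.Agent.Results.MP_816335_an.NoSyndeticOrderTwo
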